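import Pool.Agent.Helper33.KT.Wide
import Pool.Agent.Helper21.KT.Primes

/-!
# Frobenius on the second cohomology of towers of cyclic covers

Let `U = Spec A` be a smooth surface over the finite field `k` and let `Y = Spec B` be a curve over
`k`, possibly empty (`B` is then the zero ring); a variety which is not affine is cut into affine
pieces and replaced by their disjoint union. `CoverH2 k A B L V ι r e` (in `Helper33.KT.Base`) lists
properties of the geometric Frobenius on `V = H²(X̄, L)`, `L = \bar ℚ_ℓ`, for smooth projective
models `X` of étale abelian covers of `U` with a group of exponent dividing `r ^ e`, for instance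
of `w ^ (r ^ e) = f` with a function `f` without zeros on `U`; all primes `r` different from the
characteristic and all `e` are allowed.

The theorem starts from `U` (and `Y`) alone: the numbers of their points are
`|U(K)| - |K| |Y(K)| = ∑ g_i(|K|) a_i ^ n` for the extensions `K` of degree `n` of `k`, where the
polynomials `g_i` have `g_i(1) = 1` for the indices `i` in `J₁` and `g_i(1) = 0` for the others,
and the quotients `a_i / a_j`, `i ≠ j` in `J₁`, are not positive real numbers. Then there is a set
`R` of prime numbers, so large that the sum of their inverses diverges, such that for all `r`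
in `R` and ALL `e` Frobenius is semisimple on `H²` of the covers of exponent `r ^ e`.

* `Y` empty, `U` the complement in the plane of a geometrically irreducible curve `C : f = 0`, with
  arbitrary singularities and arbitrarily many places at infinity: for `i` in `J₁` the `a_i` are
  the eigenvalues of Frobenius on `H¹_c(C)` (`|U(K)| = |K| ^ 2 - |K| + ∑ a_i ^ n`). If `C` has one
  place at infinity and is unibranch, they are the eigenvalues of Frobenius on `H¹` of the
  normalisation of `C`, and the condition is that its characteristic polynomial has no multiple
  root. The parts `W i` are the weight two parts of `H²_c(U, L_χ)`, `χ ≠ 1`, the multisets `low i`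
  the eigenvalues of lower weight. By Gysin `H¹(U, 𝔽_r)` has dimension one, so that
  `H¹(U, L_χ) = 0`, `H³_c(U, L_χ) = 0`, and `H²_c(U, L_χ)` has the dimension `1 - χ(C)`, the number
  of the `a_i`. The cover `U_e` of `U` is affine, therefore the span `N` of the classes of the
  curves of `X` outside `U_e` contains an ample class, the cup product is not degenerate on `N`,
  and `V` is the sum of `N` and of the image of `H²_c(U_e)`.
  (`Helper33.KT.plane` is this case: `A = k[x, y][1 / f]` and `|C(K)| = |K| - ∑ a_i ^ n`.)
* The same for the complement of a curve in another surface, where `N` contains also the inverse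
  image of `H²` of the surface (the part of the trivial character): this needs that Frobenius is
  semisimple there. For the complement of a curve `C` in a ruled surface over a curve `D` it is,
  and the `a_i` are the eigenvalues on `H¹(C) / H¹(D)`: those on `H¹(D)` have coefficients `g_i`
  divisible by `X - 1`.
* `U → Y` a family of affine curves with irreducible fibres, `f` a function on `Y`: for an elliptic
  surface over a curve and `U` the complement of the zero section over the open set `Y` without
  zeros and poles of `f`, the surfaces are the base changes to `w ^ (r ^ e) = f`, the term with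
  `|K|` is the contribution of `R²`, and the `a_i` are the zeros of the `L`-function of the
  elliptic curve over `k(Y)` (without the Euler factors outside `Y`); reducible fibres contribute
  to `N` and to `low i`.

Idea: modulo the prime over `r`, all characters of the group of the cover are trivial, so that the
eigenvalues on `W i` of the power `Fr ^ (m r ^ s)`, `m` the order of `q` modulo `r`, are the
`a_i ^ (m r ^ s)`. If the Frobenius of `r` in the field of the `a_i` is the complex conjugation and
`r` is large, they are different: `b = a_i / a_j` with `b ^ m = 1` modulo a prime over `r` is in the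
prime field, so congruent to its complex conjugate, and real.
-/

open Module Polynomial

namespace Pool.Agent.Results.MP_1fe969_ag.KummerTowers

open Pool.Agent.Helper33.KT

theorem result {k A B J : Type} [Field k] [Finite k] [CommRing A] [Algebra k A]
    [Algebra.FiniteType k A] [CommRing B] [Algebra k B] [Algebra.FiniteType k B] [Fintype J]
    (a : J → ℂ) (ha : ∀ i, IsIntegral ℤ (a i)) (g : J → ℤ[X])
    (hg : ∀ i, (g i).eval 1 = 0 ∨ (g i).eval 1 = 1)
    (ha0 : ∀ i, (g i).eval 1 = 1 → a i ≠ 0)
    (ratio : ∀ i j, (g i).eval 1 = 1 → (g j).eval 1 = 1 → i ≠ j →
      ∀ t : ℝ, 0 < t → a i ≠ t * a j)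
    (points : ∀ (n : ℕ), 0 < n → ∀ (K : Type) [Field K] [Fintype K] [Algebra k K],
      finrank k K = n → (Nat.card (A →ₐ[k] K) : ℂ) - Fintype.card K * Nat.card (B →ₐ[k] K) =
        ∑ i, ((g i).eval (Fintype.card K : ℤ) : ℤ) * a i ^ n) :
    ∃ R : Set ℕ, (∀ r ∈ R, r.Prime) ∧ ¬ Summable (fun r : R => (1 : ℝ) / (r : ℕ)) ∧
      ∀ r ∈ R, ∀ (e : ℕ) (L V ι : Type) [Field L] [CharZero L] [IsAlgClosed L]
        [AddCommGroup V] [Module L V] [FiniteDimensional L V] (H : CoverH2 k A B L V ι r e),
        (∀ i, finrank L (H.W i) + Multiset.card (H.low i) ≤ Nat.card {i // (g i).eval 1 = 1}) →
          H.Fr.IsSemisimple :=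
  towers_wide a ha g hg ha0
    (fun h q hq b => Pool.Agent.Helper21.KT.exists_primes
      (fun i : {i // (g i).eval 1 = 1} => a i) (fun i => ha i) h q hq b) ratio points

end Pool.Agent.Results.MP_1fe969_ag.KummerTowers
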