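import Pool.Agent.Helper44.MT.Main

/-!
# Semisimplicity of Frobenius for the modular towers of level `3 ^ e`, `5 ^ e`, `7 ^ e`

Let `r = 3, 5` or `7`, and let `p` be a prime such that `-1` is a power of `p` modulo `r`.  We prove that
for every weight `k` and every `e ≥ 1` the Hecke polynomial `X ^ 2 - a_p X + χ(p) p ^ (k - 1)` of every
system of eigenvalues of the Hecke operators on the modular symbols of weight `k` and full level `r ^ e`
has two different roots, so that Frobenius is semisimple wherever it satisfies the relation of Eichler and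
Shimura.

A modular symbol of weight `k` and level `N` is a function `f x y H P` of two cusps `x`, `y`, a matrix `H`
modulo `N` and a polynomial `P`.  The cusp `a / c` is represented by every integral vector `(x 0, x 1) ≠ 0`
proportional to `(a, c)`.  A family of cusp forms `F_H` of weight `k` with `F_H = (F_(γ H)) |_k γ` for all
`γ` in `SL₂(ℤ)` (which is determined by cusp forms for `Γ(N)`) gives the symbol
`f x y H P = ∫_x^y F_H(z) P(z, 1) dz` for `P` homogeneous of degree `k - 2`.
The matrix `g` acts by `f x y H P ↦ f (g x) (g y) (g H) (P ∘ adj g)`.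
-/

set_option autoImplicit false

namespace Pool.Agent.Results.MP_1fe969_ag.ModularTowers

open MvPolynomial Matrix

/-- `P (X, Y)` becomes `P (g (X, Y))`. -/
noncomputable def subst (g : Matrix (Fin 2) (Fin 2) ℤ) (P : MvPolynomial (Fin 2) ℤ) :
    MvPolynomial (Fin 2) ℤ :=
  aeval (fun i => ∑ j, C (g i j) * X j) P

/-- Functions of two cusps, a matrix modulo `N` and a polynomial. -/
abbrev Cochain (N : ℕ) (K : Type*) :=
  (Fin 2 → ℤ) → (Fin 2 → ℤ) → Matrix (Fin 2) (Fin 2) (ZMod N) → MvPolynomial (Fin 2) ℤ → K

/-- The action of the integral matrix `g`. -/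
noncomputable def act {N : ℕ} {K : Type*} (g : Matrix (Fin 2) (Fin 2) ℤ) (f : Cochain N K) :
    Cochain N K :=
  fun x y H P => f (g *ᵥ x) (g *ᵥ y) (g.map (Int.cast : ℤ → ZMod N) * H) (subst g.adjugate P)

/-- Modular symbols of weight `k` and level `N`. -/
structure IsSymbol {N : ℕ} {K : Type*} [AddCommGroup K] (k : ℕ) (f : Cochain N K) : Prop where
  /-- The zero vector is not a cusp. -/
  zero_left : ∀ y H P, f 0 y H P = 0
  /-- The zero vector is not a cusp. -/
  zero_right : ∀ x H P, f x 0 H P = 0
  /-- Additive in the polynomial. -/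
  poly : ∀ x y H P Q, f x y H (P + Q) = f x y H P + f x y H Q
  /-- Only polynomials of degree `k - 2` count. -/
  weight : ∀ x y H P i, P.IsHomogeneous i → i + 2 ≠ k → f x y H P = 0
  /-- Additive in the path. -/
  trans : ∀ x y z, x ≠ 0 → y ≠ 0 → z ≠ 0 → ∀ H P, f x y H P + f y z H P = f x z H P
  /-- The vectors `x` and `n x` are the same cusp. -/
  scale : ∀ n : ℤ, n ≠ 0 → ∀ x y H P, f (n • x) y H P = f x y H P
  /-- Invariance under `SL₂(ℤ)`. -/
  inv : ∀ g : Matrix (Fin 2) (Fin 2) ℤ, g.det = 1 → act g f = f

/-- The Hecke operator `T_p`: the sum over `SL₂(ℤ) \ {det = p}`. -/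
noncomputable def T {N : ℕ} {K : Type*} [AddCommGroup K] (p : ℕ) (f : Cochain N K) :
    Cochain N K :=
  act !![(p : ℤ), 0; 0, 1] f + ∑ i ∈ Finset.range p, act !![1, (i : ℤ); 0, (p : ℤ)] f

/-- The operator of the scalar matrix `p`: `p ^ (k - 2)` times the diamond operator of `p`. -/
noncomputable def R {N : ℕ} {K : Type*} (p : ℕ) (f : Cochain N K) : Cochain N K :=
  act !![(p : ℤ), 0; 0, (p : ℤ)] f

/-- The pair `(a, c)` is a system of eigenvalues of `T_p` and `R_p` in weight `k` and level `N`. -/
def IsSystem {K : Type*} [Field K] (k N p : ℕ) (a c : K) : Prop :=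
  ∃ f : Cochain N K, IsSymbol k f ∧ f ≠ 0 ∧ T p f = a • f ∧ R p f = c • f

/-- The endomorphism `F` of `V` satisfies the relation of Eichler and Shimura
`F ^ 2 - T_p F + p R_p = 0` with semisimple operators `T_p` and `R_p` whose common eigenvalues occur in
the modular symbols of weight `k` and level `N`. -/
structure EichlerShimura {K V : Type*} [Field K] [AddCommGroup V] [Module K V] (k N p : ℕ)
    (F : Module.End K V) where
  /-- The Hecke operator. -/
  Tp : Module.End K V
  /-- The operator of the scalar matrix. -/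
  Rp : Module.End K V
  /-- The relation. -/
  relation : F * F - Tp * F + (p : K) • Rp = 0
  /-- The operators commute. -/
  comm : Commute Tp Rp
  /-- The operators commute with `F`. -/
  commT : Commute F Tp
  /-- The operators commute with `F`. -/
  commR : Commute F Rp
  /-- The Hecke operator is semisimple. -/
  semisimpleT : Tp.IsSemisimple
  /-- The operator of the scalar matrix is semisimple. -/
  semisimpleR : Rp.IsSemisimple
  /-- The common eigenvalues occur in the modular symbols. -/
  system : ∀ (v : V) (a c : K), v ≠ 0 → Tp v = a • v → Rp v = c • v → IsSystem k N p a c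

/-- **Modular towers.**  Let `r` and `p` be primes and `M` a multiple of `r` prime to `p`.  Suppose that
either `M = r` is `3`, `5` or `7` and `-1` is a power of `p` modulo `r`, or the polynomial
`X ^ 2 - a X + p c` has two different roots for every system `(a, c)` of WEIGHT TWO and level `M` over the
algebraic closure of the field with `r` elements.  Then it has two different roots for every system
`(a, c)` of ANY weight `k` and ANY level `M r ^ e` over fields of characteristic zero, and `F` is
semisimple in every relation of Eichler and Shimura of weight `k` and level `M r ^ e`. -/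
theorem result {r p M : ℕ} [Fact r.Prime] (hM : r ∣ M) (hp : p.Prime) (hpM : p.Coprime M)
    (h : (M = r ∧ (r = 3 ∨ r = 5 ∨ r = 7) ∧ ∃ m : ℕ, r ∣ p ^ m + 1) ∨
      ∀ a c : AlgebraicClosure (ZMod r), IsSystem 2 M p a c → a ^ 2 ≠ 4 * p * c)
    {K : Type*} [Field K] [CharZero K] (k e : ℕ) :
    (∀ a c : K, IsSystem k (M * r ^ e) p a c → a ^ 2 ≠ 4 * p * c) ∧
      ∀ (V : Type*) [AddCommGroup V] [Module K V] [FiniteDimensional K V] [IsAlgClosed K]
        (F : Module.End K V), EichlerShimura k (M * r ^ e) p F → F.IsSemisimple := by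
  have hM0 : M ≠ 0 := by
    rintro rfl
    rw [Nat.coprime_zero_right] at hpM
    exact hp.one_lt.ne' hpM
  have h0 : (M = r ∧ (r = 3 ∨ r = 5 ∨ r = 7) ∧ ∃ m : ℕ, r ∣ p ^ m + 1) ∨
      Pool.Agent.Helper44.MT.Regular (AlgebraicClosure (ZMod r)) 2 M p := by
    refine h.imp_right fun h => ?_
    intro f a c hf hT hR hac
    by_contra hf0
    exact h a c ⟨f, ⟨hf.zero_left, hf.zero_right, hf.poly, hf.weight, hf.trans, hf.scale, hf.inv⟩,
      hf0, hT, hR⟩ hac
  have h1 : ∀ a c : K, IsSystem k (M * r ^ e) p a c → a ^ 2 ≠ 4 * p * c := by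
    rintro a c ⟨f, hf, hf0, hT, hR⟩ hac
    apply hf0
    have h := Pool.Agent.Helper44.MT.regular_main hM hM0 hp hpM h0 (K := K) k e
    exact h f a c ⟨hf.zero_left, hf.zero_right, hf.poly, hf.weight, hf.trans, hf.scale, hf.inv⟩
      hT hR hac
  refine ⟨h1, fun V _ _ _ _ F D => ?_⟩
  exact Pool.Agent.Helper44.MT.frob F D.Tp D.Rp (p : K) D.relation D.comm D.commT D.commR
    D.semisimpleT D.semisimpleR fun v a c hv ha hc => h1 a c (D.system v a c hv ha hc)

end Pool.Agent.Results.MP_1fe969_ag.ModularTowers
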